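import Pool.Agent.H98.KS.Targets3

/-!
# ks_modules I2: integration by parts for the oscillatory integral
-/

set_option autoImplicit false

open scoped BigOperators

namespace Pool.Agent.H71.KS

open Pool.Agent.H98.KS

theorem ee_eq (x : ℝ) : ee x = Complex.exp (((2 * Real.pi * x : ℝ) : ℂ) * Complex.I) := by
  unfold ee
  push_cast
  rfl

theorem norm_ee (x : ℝ) : ‖ee x‖ = 1 := by
  rw [ee_eq, Complex.norm_exp_ofReal_mul_I]

theorem ee_zero : ee 0 = 1 := by
  simp [ee]

theorem ee_add (x y : ℝ) : ee (x + y) = ee x * ee y := by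
  unfold ee
  rw [← Complex.exp_add]
  congr 1
  push_cast
  ring

theorem norm_ee_sub_one (x : ℝ) : ‖ee x - 1‖ ≤ 2 * Real.pi * |x| := by
  have h := Real.norm_exp_I_mul_ofReal_sub_one_le (x := 2 * Real.pi * x)
  rw [ee_eq, mul_comm]
  refine h.trans ?_
  rw [Real.norm_eq_abs, abs_mul, abs_of_pos (by positivity : (0 : ℝ) < 2 * Real.pi)]

theorem cont_ee : Continuous ee := by
  unfold ee
  fun_prop

theorem deriv_ph (k : ℕ) (κ u x : ℝ) :
    HasDerivAt (fun y : ℝ => ee (κ * y ^ k - u * y))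
      (((2 * Real.pi * (κ * (k * x ^ (k - 1)) - u) : ℝ) : ℂ) * Complex.I *
        ee (κ * x ^ k - u * x)) x := by
  have h1 : HasDerivAt (fun y : ℝ => κ * y ^ k - u * y) (κ * (k * x ^ (k - 1)) - u) x := by
    have h2 := ((hasDerivAt_pow k x).const_mul κ).sub ((hasDerivAt_id x).const_mul u)
    rw [mul_one] at h2
    exact h2
  have h3 : HasDerivAt (fun y : ℝ => ((2 * Real.pi * (κ * y ^ k - u * y) : ℝ) : ℂ) * Complex.I)
      (((2 * Real.pi * (κ * (k * x ^ (k - 1)) - u) : ℝ) : ℂ) * Complex.I) x :=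
    ((h1.const_mul (2 * Real.pi)).ofReal_comp).mul_const Complex.I
  have h4 := h3.cexp
  have h5 : (fun y : ℝ => ee (κ * y ^ k - u * y)) =
      fun y : ℝ => Complex.exp (((2 * Real.pi * (κ * y ^ k - u * y) : ℝ) : ℂ) * Complex.I) := by
    funext y
    exact ee_eq _
  rw [h5, ee_eq (κ * x ^ k - u * x)]
  convert h4 using 1
  ring

theorem part1 (k : ℕ) (κ u : ℝ) (hk : 1 ≤ k) : |u| * ‖II k κ u‖ ≤ 1 + |κ| := by
  have hF : Continuous fun x : ℝ => ee (κ * x ^ k - u * x) := cont_ee.comp (by fun_prop)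
  have hc1 : Continuous fun x : ℝ => ((2 * Real.pi * (κ * (k * x ^ (k - 1)) - u) : ℝ) : ℂ) *
      Complex.I * ee (κ * x ^ k - u * x) := by
    refine Continuous.mul (by fun_prop) hF
  have h1 : ∫ x in (0 : ℝ)..1, ((2 * Real.pi * (κ * (k * x ^ (k - 1)) - u) : ℝ) : ℂ) *
      Complex.I * ee (κ * x ^ k - u * x) =
      ee (κ * 1 ^ k - u * 1) - ee (κ * 0 ^ k - u * 0) :=
    intervalIntegral.integral_eq_sub_of_hasDerivAt (fun x _ => deriv_ph k κ u x)
      (hc1.intervalIntegrable 0 1)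
  -- split
  have hG : Continuous fun x : ℝ => (((k : ℝ) * x ^ (k - 1) : ℝ) : ℂ) * ee (κ * x ^ k - u * x) := by
    refine Continuous.mul (by fun_prop) hF
  have h2 : ∫ x in (0 : ℝ)..1, ((2 * Real.pi * (κ * (k * x ^ (k - 1)) - u) : ℝ) : ℂ) *
      Complex.I * ee (κ * x ^ k - u * x) =
      ((2 * Real.pi * κ : ℝ) : ℂ) * Complex.I *
        (∫ x in (0 : ℝ)..1, (((k : ℝ) * x ^ (k - 1) : ℝ) : ℂ) * ee (κ * x ^ k - u * x)) -
      ((2 * Real.pi * u : ℝ) : ℂ) * Complex.I * II k κ u := by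
    unfold II
    rw [← intervalIntegral.integral_const_mul, ← intervalIntegral.integral_const_mul,
      ← intervalIntegral.integral_sub]
    · refine intervalIntegral.integral_congr fun x _ => ?_
      push_cast
      ring
    · exact (continuous_const.mul hG).intervalIntegrable 0 1
    · exact (continuous_const.mul hF).intervalIntegrable 0 1
  have h3 : ‖∫ x in (0 : ℝ)..1, (((k : ℝ) * x ^ (k - 1) : ℝ) : ℂ) * ee (κ * x ^ k - u * x)‖ ≤ 1 := by
    have hint : ∫ x in (0 : ℝ)..1, (k : ℝ) * x ^ (k - 1) = 1 := by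
      have := intervalIntegral.integral_eq_sub_of_hasDerivAt (a := 0) (b := 1)
        (fun x _ => hasDerivAt_pow k x)
        ((by fun_prop : Continuous fun x : ℝ => (k : ℝ) * x ^ (k - 1)).intervalIntegrable 0 1)
      rw [this, one_pow, zero_pow (by omega), sub_zero]
    refine le_of_le_of_eq ?_ hint
    refine intervalIntegral.norm_integral_le_of_norm_le zero_le_one ?_
      ((by fun_prop : Continuous fun x : ℝ => (k : ℝ) * x ^ (k - 1)).intervalIntegrable 0 1)
    refine Filter.Eventually.of_forall fun x hx => ?_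
    rw [norm_mul, norm_ee, mul_one, Complex.norm_real, Real.norm_eq_abs, abs_of_nonneg]
    exact mul_nonneg (Nat.cast_nonneg k) (pow_nonneg hx.1.le _)
  have h4 : ((2 * Real.pi * u : ℝ) : ℂ) * Complex.I * II k κ u =
      ((2 * Real.pi * κ : ℝ) : ℂ) * Complex.I *
        (∫ x in (0 : ℝ)..1, (((k : ℝ) * x ^ (k - 1) : ℝ) : ℂ) * ee (κ * x ^ k - u * x)) -
      (ee (κ * 1 ^ k - u * 1) - ee (κ * 0 ^ k - u * 0)) := by
    rw [← h1, h2]
    ring
  have hpi := Real.pi_gt_three
  have h5 : 2 * Real.pi * |u| * ‖II k κ u‖ ≤ 2 * Real.pi * |κ| + 2 := by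
    have e1 : ‖((2 * Real.pi * u : ℝ) : ℂ) * Complex.I * II k κ u‖ =
        2 * Real.pi * |u| * ‖II k κ u‖ := by
      rw [norm_mul, norm_mul, Complex.norm_I, mul_one, Complex.norm_real, Real.norm_eq_abs,
        abs_mul, abs_of_pos (by positivity : (0 : ℝ) < 2 * Real.pi)]
    have e2 : ‖((2 * Real.pi * κ : ℝ) : ℂ) * Complex.I *
        (∫ x in (0 : ℝ)..1, (((k : ℝ) * x ^ (k - 1) : ℝ) : ℂ) * ee (κ * x ^ k - u * x))‖ ≤
        2 * Real.pi * |κ| := by
      rw [norm_mul, norm_mul, Complex.norm_I, mul_one, Complex.norm_real, Real.norm_eq_abs,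
        abs_mul, abs_of_pos (by positivity : (0 : ℝ) < 2 * Real.pi)]
      exact mul_le_of_le_one_right (by positivity) h3
    rw [← e1, h4]
    refine (norm_sub_le _ _).trans (add_le_add e2 ?_)
    refine (norm_sub_le _ _).trans ?_
    rw [norm_ee, norm_ee]
    norm_num
  have h6 : 2 * Real.pi * (|u| * ‖II k κ u‖) ≤ 2 * Real.pi * (1 + |κ|) := by nlinarith
  exact le_of_mul_le_mul_left h6 (by positivity)

theorem part2 (k : ℕ) (κ u : ℝ) : ‖II k κ u - II k κ 0‖ ≤ 4 * |u| := by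
  have hF : ∀ u : ℝ, Continuous fun x : ℝ => ee (κ * x ^ k - u * x) :=
    fun u => cont_ee.comp (by fun_prop)
  unfold II
  rw [← intervalIntegral.integral_sub ((hF u).intervalIntegrable 0 1)
    ((hF 0).intervalIntegrable 0 1)]
  have h1 : ‖∫ x in (0 : ℝ)..1, (ee (κ * x ^ k - u * x) - ee (κ * x ^ k - 0 * x))‖ ≤
      ∫ x in (0 : ℝ)..1, 2 * Real.pi * |u| * x := by
    refine intervalIntegral.norm_integral_le_of_norm_le zero_le_one ?_
      ((by fun_prop : Continuous fun x : ℝ => 2 * Real.pi * |u| * x).intervalIntegrable 0 1)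
    refine Filter.Eventually.of_forall fun x hx => ?_
    have e1 : ee (κ * x ^ k - u * x) - ee (κ * x ^ k - 0 * x) =
        ee (κ * x ^ k) * (ee (-(u * x)) - 1) := by
      rw [sub_eq_add_neg (κ * x ^ k), ee_add, zero_mul, sub_zero]
      ring
    rw [e1, norm_mul, norm_ee, one_mul]
    refine (norm_ee_sub_one _).trans ?_
    rw [abs_neg, abs_mul, abs_of_pos hx.1, ← mul_assoc]
  refine h1.trans ?_
  rw [intervalIntegral.integral_const_mul, integral_id]
  have h2 := Real.pi_lt_four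
  have h3 := abs_nonneg u
  nlinarith

theorem part3 (k : ℕ) (κ u : ℝ) : ‖II k κ u‖ ≤ 1 := by
  unfold II
  have h := intervalIntegral.norm_integral_le_of_norm_le_const (a := (0 : ℝ)) (b := 1) (C := 1)
    (f := fun x : ℝ => ee (κ * x ^ k - u * x)) fun x _ => (norm_ee _).le
  simpa using h

theorem ks_I2 : T_I2 := fun k κ u hk => ⟨part1 k κ u hk, part2 k κ u, part3 k κ u⟩

end Pool.Agent.H71.KS
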