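import Pool.Agent.H98.KS.Targets3

/-!
# ks_modules PR: sums over a residue class and integrals
-/

set_option autoImplicit false

open scoped BigOperators

namespace Pool.Agent.H71.KS

open Pool.Agent.H98.KS Finset

theorem one_in_block (q r m : ℕ) (hq : 1 ≤ q) :
    ∃ n, (Finset.Ico m (m + q)).filter (fun n => n % q = r % q) = {n} := by
  rw [← Finset.card_eq_one]
  have hper : Function.Periodic (fun n => n % q = r % q) q := by
    intro n
    simp only [Nat.add_mod_right]
  rw [Nat.filter_Ico_card_eq_of_periodic m q _ hper, Nat.count_eq_card_filter_range,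
    Finset.card_eq_one]
  refine ⟨r % q, ?_⟩
  ext n
  rw [Finset.mem_filter, Finset.mem_range, Finset.mem_singleton]
  constructor
  · rintro ⟨h1, h2⟩
    rwa [Nat.mod_eq_of_lt h1] at h2
  · rintro rfl
    exact ⟨Nat.mod_lt _ hq, Nat.mod_mod _ _⟩

theorem pr_aux (q r : ℕ) (hq : 1 ≤ q) (f : ℝ → ℂ) (V : ℝ) (hV : 0 ≤ V) (X : ℕ) :
    (∀ x : ℝ, 0 ≤ x → x ≤ X → ‖f x‖ ≤ 1) →
    (∀ x y : ℝ, 0 ≤ x → x ≤ X → 0 ≤ y → y ≤ X → ‖f x - f y‖ ≤ V * |x - y|) →
    ‖∑ n ∈ (Finset.Ico 1 (X + 1)).filter (fun n => n % q = r % q), f n -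
      (1 / (q : ℂ)) * ∫ x in (0 : ℝ)..X, f x‖ ≤ 2 + V * X := by
  induction X using Nat.strong_induction_on with
  | _ X ih =>
  intro hb hl
  have hq0 : (0 : ℝ) < q := by exact_mod_cast hq
  have hcont : ContinuousOn f (Set.Icc 0 X) := by
    have h1 : LipschitzOnWith ⟨V, hV⟩ f (Set.Icc 0 X) := by
      refine LipschitzOnWith.of_dist_le_mul fun x hx y hy => ?_
      rw [dist_eq_norm, Real.dist_eq]
      exact hl x y hx.1 hx.2 hy.1 hy.2
    exact h1.continuousOn
  have hint : ∀ a b : ℝ, 0 ≤ a → a ≤ b → b ≤ X → IntervalIntegrable f MeasureTheory.volume a b := by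
    intro a b ha hab hbX
    refine ContinuousOn.intervalIntegrable ?_
    rw [Set.uIcc_of_le hab]
    exact hcont.mono (Set.Icc_subset_Icc ha hbX)
  rcases Nat.lt_or_ge X q with hX | hX
  · -- few terms
    obtain ⟨n, hn⟩ := one_in_block q r 1 hq
    have hsub : (Finset.Ico 1 (X + 1)).filter (fun n => n % q = r % q) ⊆ {n} := by
      rw [← hn]
      refine Finset.filter_subset_filter _ (Finset.Ico_subset_Ico_right (by omega))
    have h1 : ‖∑ n ∈ (Finset.Ico 1 (X + 1)).filter (fun n => n % q = r % q), f n‖ ≤ 1 := by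
      refine (norm_sum_le _ _).trans ?_
      have h2 : ∀ n ∈ (Finset.Ico 1 (X + 1)).filter (fun n => n % q = r % q), ‖f n‖ ≤ 1 := by
        intro n hn
        rw [Finset.mem_filter, Finset.mem_Ico] at hn
        exact hb n (Nat.cast_nonneg n) (by exact_mod_cast Nat.lt_succ_iff.1 hn.1.2)
      refine (Finset.sum_le_sum h2).trans ?_
      rw [Finset.sum_const, nsmul_eq_mul, mul_one]
      have := Finset.card_le_card hsub
      rw [Finset.card_singleton] at this
      exact_mod_cast this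
    have h3 : ‖(1 / (q : ℂ)) * ∫ x in (0 : ℝ)..X, f x‖ ≤ 1 := by
      rw [norm_mul, norm_div, norm_one, Complex.norm_natCast]
      have h4 : ‖∫ x in (0 : ℝ)..X, f x‖ ≤ 1 * |(X : ℝ) - 0| := by
        refine intervalIntegral.norm_integral_le_of_norm_le_const fun x hx => ?_
        rw [Set.uIoc_of_le (Nat.cast_nonneg X)] at hx
        exact hb x hx.1.le hx.2
      rw [sub_zero, one_mul, abs_of_nonneg (Nat.cast_nonneg X)] at h4
      rw [div_mul_eq_mul_div, one_mul, div_le_one hq0]
      refine h4.trans ?_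
      exact_mod_cast hX.le
    refine (norm_sub_le _ _).trans ?_
    have : 0 ≤ V * X := mul_nonneg hV (Nat.cast_nonneg X)
    linarith
  · -- step
    obtain ⟨Y, rfl⟩ : ∃ Y, X = Y + q := ⟨X - q, by omega⟩
    have hih := ih Y (by omega)
      (fun x h0 h1 => hb x h0 (h1.trans (by push_cast; linarith)))
      (fun x y h0 h1 h2 h3 => hl x y h0 (h1.trans (by push_cast; linarith)) h2
        (h3.trans (by push_cast; linarith)))
    have hYX : (Y : ℝ) ≤ ((Y + q : ℕ) : ℝ) := by push_cast; linarith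
    obtain ⟨n, hn⟩ := one_in_block q r (Y + 1) hq
    have hnm : n ∈ (Finset.Ico (Y + 1) (Y + 1 + q)).filter (fun n => n % q = r % q) := by
      rw [hn]; exact Finset.mem_singleton_self n
    rw [Finset.mem_filter, Finset.mem_Ico] at hnm
    have hs : ∑ n ∈ (Finset.Ico 1 (Y + q + 1)).filter (fun n => n % q = r % q), f n =
        ∑ n ∈ (Finset.Ico 1 (Y + 1)).filter (fun n => n % q = r % q), f n + f n := by
      have h1 : f n = ∑ n ∈ (Finset.Ico (Y + 1) (Y + 1 + q)).filter (fun n => n % q = r % q),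
          f n := by
        rw [hn, Finset.sum_singleton]
      rw [h1, Finset.sum_filter, Finset.sum_filter, Finset.sum_filter,
        Finset.sum_Ico_consecutive _ (by omega) (by omega)]
      congr 2
      omega
    have hi : ∫ x in (0 : ℝ)..((Y + q : ℕ) : ℝ), f x =
        (∫ x in (0 : ℝ)..Y, f x) + ∫ x in (Y : ℝ)..((Y + q : ℕ) : ℝ), f x :=
      (intervalIntegral.integral_add_adjacent_intervals
        (hint 0 Y le_rfl (Nat.cast_nonneg Y) hYX)
        (hint Y _ (Nat.cast_nonneg Y) hYX le_rfl)).symm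
    have hd : ‖f n - (1 / (q : ℂ)) * ∫ x in (Y : ℝ)..((Y + q : ℕ) : ℝ), f x‖ ≤ V * q := by
      have hqc : (q : ℂ) ≠ 0 := by exact_mod_cast hq0.ne'
      have e1 : f n - (1 / (q : ℂ)) * ∫ x in (Y : ℝ)..((Y + q : ℕ) : ℝ), f x =
          (1 / (q : ℂ)) * ∫ x in (Y : ℝ)..((Y + q : ℕ) : ℝ), (f n - f x) := by
        rw [intervalIntegral.integral_sub (intervalIntegrable_const)
          (hint Y _ (Nat.cast_nonneg Y) hYX le_rfl), intervalIntegral.integral_const]
        have : (((Y + q : ℕ) : ℝ) - Y) = q := by push_cast; ring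
        rw [this, Complex.real_smul]
        push_cast
        field_simp
      rw [e1, norm_mul, norm_div, norm_one, Complex.norm_natCast]
      have h4 : ‖∫ x in (Y : ℝ)..((Y + q : ℕ) : ℝ), (f n - f x)‖ ≤
          (V * q) * |((Y + q : ℕ) : ℝ) - Y| := by
        refine intervalIntegral.norm_integral_le_of_norm_le_const fun x hx => ?_
        rw [Set.uIoc_of_le hYX] at hx
        have hn1 : (n : ℝ) ≤ ((Y + q : ℕ) : ℝ) := by exact_mod_cast (by omega : n ≤ Y + q)
        have hn2 : (Y : ℝ) + 1 ≤ n := by exact_mod_cast hnm.1.1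
        refine (hl n x (Nat.cast_nonneg n) hn1 ((Nat.cast_nonneg Y).trans hx.1.le) hx.2).trans ?_
        refine mul_le_mul_of_nonneg_left ?_ hV
        have hx1 := hx.1
        have hx2 := hx.2
        push_cast at hx2 hn1
        rw [abs_le]
        constructor <;> linarith
      have : |((Y + q : ℕ) : ℝ) - Y| = q := by
        push_cast
        rw [add_sub_cancel_left, abs_of_pos hq0]
      rw [this] at h4
      rw [div_mul_eq_mul_div, one_mul, div_le_iff₀ hq0]
      exact h4
    rw [hs, hi]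
    have e2 : ∑ n ∈ (Finset.Ico 1 (Y + 1)).filter (fun n => n % q = r % q), f n + f n -
        (1 / (q : ℂ)) * ((∫ x in (0 : ℝ)..Y, f x) + ∫ x in (Y : ℝ)..((Y + q : ℕ) : ℝ), f x) =
        (∑ n ∈ (Finset.Ico 1 (Y + 1)).filter (fun n => n % q = r % q), f n -
          (1 / (q : ℂ)) * ∫ x in (0 : ℝ)..Y, f x) +
        (f n - (1 / (q : ℂ)) * ∫ x in (Y : ℝ)..((Y + q : ℕ) : ℝ), f x) := by ring
    rw [e2]
    refine (norm_add_le _ _).trans ((add_le_add hih hd).trans (le_of_eq ?_))
    push_cast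
    ring

theorem ks_PR : T_PR := by
  intro f V X q r hq hV hb hl
  have h1 : Finset.Icc 1 X = Finset.Ico 1 (X + 1) := by
    ext n
    rw [Finset.mem_Icc, Finset.mem_Ico, Nat.lt_succ_iff]
  rw [h1]
  refine (pr_aux q r hq f V hV X hb hl).trans ?_
  linarith

end Pool.Agent.H71.KS
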